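import Pool.Agent.Lib.MP_386e47_ag_h1L.Defs

/-!
The group generated by the tuples of level zero with at most `2 * r` entries and the
Hasse-Davenport tuples.
-/

set_option autoImplicit false

namespace Pool.Agent.Lib.MP_938ce2_ag_h1Z

open Pool.Agent.Lib.MP_386e47_ag_h1L

/-- the group generated by the formal sums of the characters of level zero with at most `2 * r`
entries and of the Hasse-Davenport tuples of prime order (with nonzero entries) -/
noncomputable def RelUpTo (r : ℕ) : AddSubgroup (QZ →₀ ℤ) := AddSubgroup.closure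
  ({h | ∃ (k : ℕ) (b : Fin k → QZ), k ≤ 2 * r ∧ LevelZero b ∧ h = formal b} ∪
    {h | ∃ (p : ℕ) (x : QZ), p.Prime ∧ p • x ≠ 0 ∧ h = hasseDavenport p x})

end Pool.Agent.Lib.MP_938ce2_ag_h1Z
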