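import Pool.Agent.Lib.MP_938ce2_ag_h1Z.SG
import Pool.Agent.Lib.MP_938ce2_ag_h1Z.ZDefs
import Pool.Agent.Lib.MP_386e47_ag_h1L.F3
import Pool.Agent.Lib.MP_386e47_ag_h1L.K1
import Pool.Agent.Lib.MP_386e47_ag_h1L.W5

/-!
Characters of level zero: all classes of parallel forms are inactive.
-/

set_option autoImplicit false

namespace Pool.Agent.Lib.MP_938ce2_ag_h1Z

open Finset
open Pool.Agent.LevelOne (saw dot)
open Pool.Agent.Lib.MP_386e47_ag_h1L

variable {ι κ : Type} [Fintype ι] [Fintype κ] [DecidableEq ι] {v : ι → κ → ℤ}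

lemma avg_zero (α : ι → ℝ) (hz : ∀ i ∈ zs v, ∀ n : ℤ, α i ≠ n) (hst : ZeroVal α v)
    {C : Finset ι} {y : κ → ℤ} {N : ℤ} {q : ι → ℤ} (hC : IsClass v C y N q) (t : ℝ)
    (ht : Gen C α q t) : kap0 α v + gs C α q t = 0 := by
  obtain ⟨η, h1, h2⟩ := exists_eta hC
  obtain ⟨θ₀, rfl⟩ := exists_theta hC t
  have hθ := (genC_iff hC α θ₀).2 ht
  rw [← gC_eq hC, ← integral_line α hC h1 h2 θ₀]
  have h3 : ∫ s in (0 : ℝ)..1, gC univ α v (fun j => θ₀ j + s * η j) =
      ∫ _ in (0 : ℝ)..1, (0 : ℝ) := by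
    apply intervalIntegral.integral_congr_ae
    filter_upwards [ae_genC α hz hC h1 h2 θ₀ hθ] with s hs _
    exact hst _ hs
  rw [h3]
  simp

lemma kap0_zero_of_class (α : ι → ℝ) (hz : ∀ i ∈ zs v, ∀ n : ℤ, α i ≠ n) (hst : ZeroVal α v)
    {C : Finset ι} (hC : C ∈ classes v) : kap0 α v = 0 := by
  obtain ⟨y, N, q, hq⟩ := isClass_cl hC
  have hq0 : ∀ i ∈ C, q i ≠ 0 := fun i hi => (hq.2.2.1 i hi).1
  have h1 := integral_gs C α q hq0
  have h2 : ∫ t in (0 : ℝ)..1, gs C α q t = ∫ _ in (0 : ℝ)..1, -kap0 α v := by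
    apply intervalIntegral.integral_congr_ae
    filter_upwards [ae_gen C α q hq0] with t ht _
    have := avg_zero α hz hst hq t ht
    linarith
  rw [h2, intervalIntegral.integral_const, sub_zero, one_smul] at h1
  linarith

theorem kap0_zero (α : ι → ℝ) (hz : ∀ i ∈ zs v, ∀ n : ℤ, α i ≠ n) (hst : ZeroVal α v) :
    kap0 α v = 0 := by
  by_cases hne : (classes v).Nonempty
  · obtain ⟨C, hC⟩ := hne
    exact kap0_zero_of_class α hz hst hC
  · rw [Finset.not_nonempty_iff_eq_empty] at hne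
    have hall : ∀ i, i ∈ zs v := by
      intro i
      by_contra hi
      have h1 : v i ≠ 0 := fun h => hi (Finset.mem_filter.mpr ⟨Finset.mem_univ _, h⟩)
      have h2 : cl v i ∈ classes v := mem_classes.mpr ⟨i, h1, rfl⟩
      rw [hne] at h2
      exact Finset.notMem_empty _ h2
    have hd : ∀ w : κ → ℤ, dot w (0 : κ → ℝ) = 0 := fun w => by
      unfold dot
      simp
    have h1 := hst 0 fun i _ n => by
      rw [hd, add_zero]
      exact hz i (hall i) n
    have h3 := sum_classes v fun i => saw (α i + dot (v i) (0 : κ → ℝ))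
    rw [hne, Finset.sum_empty, add_zero] at h3
    unfold gC at h1
    rw [h3] at h1
    unfold kap0
    simpa only [hd, add_zero] using h1

theorem inactive_all (α : ι → ℝ) (hz : ∀ i ∈ zs v, ∀ n : ℤ, α i ≠ n) (hst : ZeroVal α v)
    {C : Finset ι} (hC : C ∈ classes v) : Inactive α v C := by
  obtain ⟨y, N, q, hq⟩ := isClass_cl hC
  rw [inactive_iff hq]
  intro t ht
  have := avg_zero α hz hst hq t ht
  rwa [kap0_zero α hz hst, zero_add] at this

lemma wsum_zero {α : ι → ℝ} {C : Finset ι} (hC : C ∈ classes v) (h : Inactive α v C) :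
    wsum v C = 0 := by
  obtain ⟨y, N, q, hq⟩ := isClass_cl hC
  by_contra hne
  exact (wsum_ne_zero_iff hq).mp hne
    (degree_zero C α q (fun i hi => (hq.2.2.1 i hi).1) ((inactive_iff hq α).mp h))

/-- the group `Rel` is contained in `RelUpTo r` for `r ≥ 2` -/
lemma rel_le {r : ℕ} (hr : 2 ≤ r) : MP_386e47_ag_h1L.Rel ≤ RelUpTo r := by
  unfold MP_386e47_ag_h1L.Rel RelUpTo
  refine AddSubgroup.closure_mono (Set.union_subset_union_left _ ?_)
  rintro h ⟨k, b, hk, hb, rfl⟩
  exact ⟨k, b, by omega, hb, rfl⟩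

omit [DecidableEq ι] in
lemma relUpTo_levelZero {r : ℕ} (b : ι → QZ) (hJ : Fintype.card ι ≤ 2 * r)
    (hb : LevelZero b) : formal b ∈ RelUpTo r := by
  classical
  let e := (Fintype.equivFin ι).symm
  have h1 : formal b = formal (fun i => b (e i)) := by
    unfold formal
    exact (Equiv.sum_comp e fun i => (Finsupp.single (b i) 1 : QZ →₀ ℤ)).symm
  rw [h1]
  refine AddSubgroup.subset_closure (Or.inl ⟨_, _, hJ, ?_, rfl⟩)
  refine ⟨⟨fun i => hb.1.1 _, ?_⟩, fun u hu => ?_⟩
  · rw [← hb.1.2]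
    exact Equiv.sum_comp e b
  · have h2 : Adm b u := fun i => by
      have := hu (e.symm i)
      simpa using this
    have h3 : total (fun i => b (e i)) u = total b u := by
      unfold total
      exact Equiv.sum_comp e fun i => rep (u • b i)
    rw [h3, hb.2 u h2, Fintype.card_fin]

/-- the constant part, completed by `1/2`, has level zero -/
theorem core_levelZero (a : ι → QZ) (ha : IsCharacter a)
    (hst : ∀ u, Adm a u → ZeroVal (rl a u) v) (e : ℕ)
    (hch : IsCharacter (coreT a (zs v) e)) : LevelZero (coreT a (zs v) e) := by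
  rw [levelZero_iff hch]
  intro u hu
  set n : ℕ := ∏ i ∈ zs v, addOrderOf (a i) with hn
  have hn0 : 0 < n := Finset.prod_pos fun i _ => order_pos (a i)
  have hun : u.Coprime n := Nat.Coprime.prod_right fun i hi => hu (Sum.inl ⟨i, hi⟩)
  have hT0 : 0 < ∏ i, addOrderOf (a i) := Finset.prod_pos fun i _ => order_pos (a i)
  obtain ⟨w, hwu, hwT, -⟩ := exists_lift hn0 hT0 hun
  have hwa : Adm a w := fun i => Nat.Coprime.coprime_dvd_right
    (Finset.dvd_prod_of_mem (fun i => addOrderOf (a i)) (Finset.mem_univ i)) hwT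
  have heq : ∀ i ∈ zs v, rl a w i = rl a u i := by
    intro i hi
    unfold rl
    rw [smul_eq_of_modEq (n := n) (addOrderOf_dvd_iff_nsmul_eq_zero.mp
      (Finset.dvd_prod_of_mem (fun i => addOrderOf (a i)) hi)) hwu]
  have hk : kap0 (rl a w) v = 0 :=
    kap0_zero (rl a w) (fun i _ n => rl_ne_int hwa (ha.1 i) n) (hst w hwa)
  have hin : ∀ k : Fin e, saw (rl (coreT a (zs v) e) u (Sum.inr k)) = 0 := by
    intro k
    have h7 := hu (Sum.inr k)
    have h8 : u.Coprime 2 := by
      rw [← order_half]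
      exact h7
    have h9 : rl (coreT a (zs v) e) u (Sum.inr k) = (((1 / 2 : ℚ)) : ℝ) := by
      unfold rl coreT
      simp only [Sum.elim_inr]
      rw [rep_half_odd h8]
    rw [h9, Pool.Agent.LevelOne.saw_of_mem (by norm_num) (by norm_num)]
    norm_num
  rw [Fintype.sum_sum_type, Finset.sum_congr rfl fun k _ => hin k, Finset.sum_const_zero, add_zero]
  have h10 : ∑ i : (zs v : Finset ι), saw (rl (coreT a (zs v) e) u (Sum.inl i)) =
      ∑ i ∈ zs v, saw (rl a u i) := Finset.sum_coe_sort (zs v) fun i => saw (rl a u i)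
  rw [h10, ← hk]
  unfold kap0
  exact Finset.sum_congr rfl fun i hi => by rw [heq i hi]

/-- if the rank of the linear forms is at least `k - r` then the character is in `RelUpTo r` -/
theorem relUpTo_of_rank (r k : ℕ) (hr : 2 ≤ r) (hcard : Fintype.card ι = 2 * k) (a : ι → QZ)
    (ha : IsCharacter a) (hst : ∀ u, Adm a u → ZeroVal (rl a u) v) (hrk : k - r ≤ rk v) :
    formal a ∈ RelUpTo r := by
  classical
  have hz : ∀ i ∈ zs v, ∀ n : ℤ, rl a 1 i ≠ n := fun i _ n => rl_ne_int (adm_one a) (ha.1 i) n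
  have hin : ∀ C ∈ classes v, Inactive (rl a 1) v C := fun C hC =>
    inactive_all (rl a 1) hz (hst 1 (adm_one a)) hC
  have hcl : k - r ≤ (classes v).card := hrk.trans rk_le
  have hent : 2 * k = (zs v).card + ∑ C ∈ classes v, C.card := by
    have h1 := sum_classes v fun _ => 1
    simpa [hcard] using h1
  have hge : 2 * (classes v).card ≤ ∑ C ∈ classes v, C.card := by
    have h1 : ∑ C ∈ classes v, 2 ≤ ∑ C ∈ classes v, C.card := Finset.sum_le_sum fun C hC =>
      two_le_card hC (wsum_zero hC (hin C hC))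
    simpa [mul_comm] using h1
  set s : ℕ := ∑ C ∈ classes v, C.card with hs
  have hrel : formal a - formal (coreT a (zs v) (s % 2)) ∈ MP_386e47_ag_h1L.Rel := by
    refine rel_core ha.1 (zs v) (s % 2) (classes v) (Finset.Subset.refl _) hin
      (fun f => sum_classes v f) ?_
    have h1 : (∑ C ∈ classes v, (C.card : ℤ)) = (s : ℤ) := by
      rw [hs]
      push_cast
      rfl
    rw [h1]
    refine ⟨(s / 2 : ℕ), ?_⟩
    have h2 := Nat.div_add_mod s 2
    omega
  have hch := isCharacter_core ha (zs v) (s % 2) hrel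
  have hlz := core_levelZero a ha hst (s % 2) hch
  have h1 : formal (coreT a (zs v) (s % 2)) ∈ RelUpTo r := by
    refine relUpTo_levelZero _ ?_ hlz
    rw [card_core]
    omega
  have h2 := (RelUpTo r).add_mem (rel_le hr hrel) h1
  rwa [sub_add_cancel] at h2

theorem mainZ (r k : ℕ) (hr : 2 ≤ r) : ∃ C : ℕ, ∀ m : ℕ, 1 ≤ m →
    {a : Fin (2 * k) → QZ | (∀ i, m • a i = 0) ∧ LevelZero a ∧ formal a ∉ RelUpTo r}.encard ≤
      ((C * m ^ (k - r - 1) : ℕ) : ℕ∞) := by
  classical
  obtain ⟨F, Q, hQ, hF⟩ := structureZ (2 * k)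
  choose K hK using fun S : Finset (Fin (2 * k) → ℤ) => count (2 * k) S Q hQ
  refine ⟨∑ S ∈ F, K S, fun m hm => ?_⟩
  set X : Finset (Fin (2 * k) → ℤ) → Set (Fin (2 * k) → QZ) := fun S =>
    {a : Fin (2 * k) → QZ | (∀ i, m • a i = 0) ∧ ∀ χ : Fin (2 * k) → ℤ,
      (∀ c ∈ S, ∑ i, χ i * c i = 0) → Q • ∑ i, χ i • a i = 0} with hX
  have hsub : {a : Fin (2 * k) → QZ | (∀ i, m • a i = 0) ∧ LevelZero a ∧
      formal a ∉ RelUpTo r} ⊆
      ⋃ S ∈ F.filter (fun S : Finset (Fin (2 * k) → ℤ) =>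
        rk (fun i (c : S) => c.1 i) ≤ k - r - 1), X S := by
    rintro a ⟨h1, h2, h3⟩
    obtain ⟨S, hS, h4, h5, h6⟩ := hF a h2
    rw [Set.mem_iUnion₂]
    refine ⟨S, ?_, h1, h5⟩
    rw [Finset.mem_filter]
    refine ⟨hS, ?_⟩
    by_contra h7
    exact h3 (relUpTo_of_rank r k hr (by simp) a h2.1 h6 (by omega))
  refine (Set.encard_le_encard hsub).trans ?_
  have hbi : ∀ G : Finset (Finset (Fin (2 * k) → ℤ)),
      (⋃ S ∈ G, X S).encard ≤ ∑ S ∈ G, (X S).encard := by
    intro G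
    induction G using Finset.induction_on with
    | empty => simp
    | insert S G hS ih =>
      rw [Finset.set_biUnion_insert, Finset.sum_insert hS]
      exact (Set.encard_union_le _ _).trans (by gcongr)
  refine (hbi _).trans ?_
  refine (Finset.sum_le_sum (g := fun S => ((K S * m ^ (k - r - 1) : ℕ) : ℕ∞)) ?_).trans ?_
  · intro S hS
    rw [Finset.mem_filter] at hS
    refine (hK S m hm).trans ?_
    norm_cast
    exact Nat.mul_le_mul_left _ (Nat.pow_le_pow_right hm hS.2)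
  · rw [← Nat.cast_sum]
    norm_cast
    rw [Finset.sum_mul]
    exact Finset.sum_le_sum_of_subset (Finset.filter_subset _ _)

end Pool.Agent.Lib.MP_938ce2_ag_h1Z
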