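import Pool.Agent.Lib.MP_938ce2_ag_h99.Alg2
import Pool.Agent.Lib.MP_938ce2_ag_h99.Level
import Pool.Agent.Lib.MP_938ce2_ag_h1Z.Z

/-!
From formal sums of elements of `ℚ/ℤ` to the class of characters generated by known ones.
-/

set_option autoImplicit false

namespace Pool.Agent.Lib.MP_938ce2_ag_h1Z

open Finset
open Pool.Agent.LevelOne (saw dot)
open Pool.Agent.Lib.MP_386e47_ag_h1L
open Pool.Agent.Lib.MP_938ce2_ag_h6 (oddPart oddPart_add)
open Pool.Agent.Lib.MP_938ce2_ag_h99 (IsAlgG algSubG isAlgG_iff_mem jj jj_val jj_injective)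

section

variable (M : ℕ) [NeZero M]

/-- the embedding of `ℤ/M` into `ℚ/ℤ` -/
noncomputable def toQ : ZMod M →+ QZ :=
  ZMod.lift M ⟨zmultiplesHom QZ (((1 / M : ℚ)) : QZ), by
    have hM : (M : ℚ) ≠ 0 := by exact_mod_cast NeZero.ne M
    rw [zmultiplesHom_apply, natCast_zsmul, ← AddCircle.coe_nsmul, nsmul_eq_mul,
      mul_one_div, div_self hM]
    exact coe_eq_zero.mpr ⟨1, by simp⟩⟩

lemma toQ_natCast (k : ℕ) : toQ M (k : ZMod M) = (((k : ℚ) / M : ℚ) : QZ) := by
  have h1 : toQ M (((k : ℤ) : ZMod M)) = zmultiplesHom QZ (((1 / M : ℚ)) : QZ) (k : ℤ) :=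
    ZMod.lift_coe _ _ _
  rw [Int.cast_natCast] at h1
  rw [h1, zmultiplesHom_apply, natCast_zsmul, ← AddCircle.coe_nsmul, nsmul_eq_mul,
    mul_one_div]

lemma toQ_apply (x : ZMod M) : toQ M x = (((x.val : ℚ) / M : ℚ) : QZ) := by
  rw [← toQ_natCast, ZMod.natCast_zmod_val]

lemma rep_toQ (x : ZMod M) : rep (toQ M x) = (x.val : ℚ) / M := by
  have hM : (0 : ℚ) < M := by exact_mod_cast NeZero.pos M
  rw [toQ_apply, rep_coe, Int.fract_eq_self]
  refine ⟨by positivity, ?_⟩
  rw [div_lt_one hM]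
  exact_mod_cast ZMod.val_lt x

lemma toQ_injective : Function.Injective (toQ M) := by
  intro x y h
  have hM : (M : ℚ) ≠ 0 := by exact_mod_cast NeZero.ne M
  have h1 := congrArg rep h
  rw [rep_toQ, rep_toQ, div_left_inj' hM] at h1
  exact ZMod.val_injective M (by exact_mod_cast h1)

lemma exists_toQ (x : QZ) (h : M • x = 0) : ∃ y, toQ M y = x := by
  have hM : (M : ℚ) ≠ 0 := by exact_mod_cast NeZero.ne M
  have h1 : M • x = ((M * rep x : ℚ) : QZ) := by
    rw [← nsmul_eq_mul, AddCircle.coe_nsmul, coe_rep]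
  rw [h1, coe_eq_zero] at h
  obtain ⟨n, hn⟩ := h
  have h3 : 0 ≤ n := by
    have h4 : (0 : ℚ) ≤ M * rep x := mul_nonneg (by positivity) (rep_nonneg x)
    rw [hn] at h4
    exact_mod_cast h4
  obtain ⟨k, rfl⟩ := Int.eq_ofNat_of_zero_le h3
  refine ⟨(k : ZMod M), ?_⟩
  rw [toQ_natCast, ← coe_rep x]
  congr 1
  rw [div_eq_iff hM, mul_comm, hn]
  simp

/-- the odd part at level `M` -/
noncomputable def oddQ : (QZ →₀ ℤ) →+ (ZMod M → ℤ) where
  toFun h := fun x => h (toQ M x) - h (-toQ M x)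
  map_zero' := by
    funext x
    simp
  map_add' h h' := by
    funext x
    simp only [Finsupp.add_apply, Pi.add_apply]
    ring

end

lemma toQ_jj {m M : ℕ} [NeZero m] [NeZero M] (h : m ∣ M) (x : ZMod m) :
    toQ M (jj h x) = toQ m x := by
  have hM : (M : ℚ) ≠ 0 := by exact_mod_cast NeZero.ne M
  have hm : (m : ℚ) ≠ 0 := by exact_mod_cast NeZero.ne m
  rw [toQ_apply, toQ_apply, jj_val h]
  congr 1
  rw [div_eq_div_iff hM hm]
  have h1 : (M / m) * m = M := Nat.div_mul_cancel h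
  have h2 : ((M / m : ℕ) : ℚ) * m = M := by exact_mod_cast h1
  push_cast
  rw [← h2]
  ring

lemma oddPart_map {M : ℕ} {ι : Type} [Fintype ι] (f : ι → ZMod M) (x : ZMod M) :
    oddPart (univ.val.map f) x =
      ∑ i, ((if f i = x then 1 else 0 : ℤ) - (if f i = -x then 1 else 0 : ℤ)) := by
  have h1 : ∀ y : ZMod M, (((univ : Finset ι).val.map f).count y : ℤ) =
      ∑ i, (if f i = y then 1 else 0 : ℤ) := by
    intro y
    rw [Multiset.count_map, ← Finset.filter_val, Finset.card_val, Finset.card_filter]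
    push_cast
    refine Finset.sum_congr rfl fun i _ => ?_
    by_cases hh : f i = y
    · rw [if_pos hh, if_pos hh.symm]
    · rw [if_neg hh, if_neg (Ne.symm hh)]
  unfold oddPart
  rw [h1, h1, Finset.sum_sub_distrib]

lemma oddQ_formal {m M : ℕ} [NeZero m] [NeZero M] {ι : Type} [Fintype ι] (h : m ∣ M)
    (a : ι → ZMod m) :
    oddQ M (formal fun i => toQ m (a i)) = oddPart ((univ.val.map a).map (jj h)) := by
  funext x
  rw [Multiset.map_map, oddPart_map]
  change (formal fun i => toQ m (a i)) (toQ M x) - (formal fun i => toQ m (a i)) (-toQ M x) = _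
  unfold formal
  rw [Finsupp.finsetSum_apply, Finsupp.finsetSum_apply, ← Finset.sum_sub_distrib]
  refine Finset.sum_congr rfl fun i _ => ?_
  simp only [Finsupp.single_apply, ← toQ_jj h, ← map_neg, (toQ_injective M).eq_iff,
    Function.comp_apply]

/-- every finite family of elements comes from a level -/
lemma exists_level {k : ℕ} (b : Fin k → QZ) : ∃ (m : ℕ) (_ : NeZero m) (a : Fin k → ZMod m),
    ∀ i, toQ m (a i) = b i := by
  have hm : 0 < ∏ i, addOrderOf (b i) := Finset.prod_pos fun i _ => order_pos (b i)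
  refine ⟨∏ i, addOrderOf (b i), ⟨hm.ne'⟩, ?_⟩
  have : NeZero (∏ i, addOrderOf (b i)) := ⟨hm.ne'⟩
  have h1 : ∀ i, ∃ y, toQ (∏ i, addOrderOf (b i)) y = b i := fun i =>
    exists_toQ _ _ (addOrderOf_dvd_iff_nsmul_eq_zero.mp
      (Finset.dvd_prod_of_mem (fun i => addOrderOf (b i)) (Finset.mem_univ i)))
  choose a ha using h1
  exact ⟨a, ha⟩

lemma rep_smul_toQ {m : ℕ} [NeZero m] (w : ℕ) (x : ZMod m) :
    rep (w • toQ m x) = ((((w : ZMod m) * x).val : ℚ)) / m := by
  rw [← rep_toQ, ← map_nsmul, nsmul_eq_mul]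

/-- tuples of level zero are Tate characters -/
lemma isTate_of_levelZero {k m : ℕ} [NeZero m] (a : Fin k → ZMod m)
    (h : LevelZero fun i => toQ m (a i)) :
    Pool.Agent.Lib.MP_938ce2_ag_h6.IsTate (univ.val.map a) := by
  have hm : (m : ℚ) ≠ 0 := by exact_mod_cast NeZero.ne m
  refine ⟨?_, ?_, fun t => ?_⟩
  · intro h0
    rw [Multiset.mem_map] at h0
    obtain ⟨i, -, hi⟩ := h0
    refine h.1.1 i ?_
    change toQ m (a i) = 0
    rw [hi, map_zero]
  · apply toQ_injective m
    rw [map_zero]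
    have h1 := h.1.2
    rw [← map_sum] at h1
    exact h1
  · have h1 : Adm (fun i => toQ m (a i)) (t : ZMod m).val := by
      intro i
      refine Nat.Coprime.coprime_dvd_right ?_ (ZMod.val_coe_unit_coprime t)
      rw [addOrderOf_dvd_iff_nsmul_eq_zero, ← map_nsmul, nsmul_eq_mul, ZMod.natCast_self, zero_mul,
        map_zero]
    have h2 := h.2 _ h1
    unfold total at h2
    simp only [rep_smul_toQ, ZMod.natCast_zmod_val, Fintype.card_fin] at h2
    rw [← Finset.sum_div, div_eq_div_iff hm (by norm_num)] at h2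
    rw [Multiset.map_map, Multiset.card_map]
    have h3 : ((univ : Finset (Fin k)).val.map
        ((fun a => ((t : ZMod m) * a).val) ∘ a)).sum = ∑ i, ((t : ZMod m) * a i).val := rfl
    have h4 : (Finset.univ : Finset (Fin k)).val.card = k := by simp
    rw [h3, h4]
    have h5 : ((2 * ∑ i, ((t : ZMod m) * a i).val : ℕ) : ℚ) = ((m * k : ℕ) : ℚ) := by
      push_cast
      linarith
    exact_mod_cast h5

/-- Tate characters are tuples of level zero -/
lemma levelZero_of_isTate {k m : ℕ} [NeZero m] (a : Fin k → ZMod m)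
    (h : Pool.Agent.Lib.MP_938ce2_ag_h6.IsTate (univ.val.map a)) :
    LevelZero fun i => toQ m (a i) := by
  have hm : (m : ℚ) ≠ 0 := by exact_mod_cast NeZero.ne m
  obtain ⟨h0, h1, h2⟩ := h
  have hne : ∀ i, toQ m (a i) ≠ 0 := by
    intro i hi
    apply h0
    rw [Multiset.mem_map]
    exact ⟨i, Finset.mem_univ_val i, toQ_injective m (by rw [hi, map_zero])⟩
  refine ⟨⟨hne, ?_⟩, fun u hu => ?_⟩
  · rw [← map_sum]
    have h3 : ∑ i, a i = 0 := h1
    rw [h3, map_zero]
  · have hn : 0 < ∏ i, addOrderOf (toQ m (a i)) := Finset.prod_pos fun i _ => order_pos _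
    obtain ⟨w, hw, hwm, -⟩ := exists_lift hn (NeZero.pos m) (Nat.Coprime.prod_right fun i _ => hu i)
    have h3 : total (fun i => toQ m (a i)) u = ∑ i, ((((w : ZMod m) * a i).val : ℚ)) / m := by
      unfold total
      refine Finset.sum_congr rfl fun i _ => ?_
      rw [← rep_smul_toQ, smul_eq_of_modEq (addOrderOf_dvd_iff_nsmul_eq_zero.mp
        (Finset.dvd_prod_of_mem (fun i => addOrderOf (toQ m (a i))) (Finset.mem_univ i))) hw]
    have h4 := h2 (ZMod.unitOfCoprime w hwm)
    rw [Multiset.map_map, Multiset.card_map, ZMod.coe_unitOfCoprime] at h4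
    have h5 : ((univ : Finset (Fin k)).val.map
        ((fun a => ((w : ZMod m) * a).val) ∘ a)).sum = ∑ i, ((w : ZMod m) * a i).val := rfl
    have h6 : (Finset.univ : Finset (Fin k)).val.card = k := by simp
    rw [h5, h6] at h4
    rw [h3, Fintype.card_fin, ← Finset.sum_div, div_eq_div_iff hm (by norm_num)]
    have h7 : ((2 * ∑ i, ((w : ZMod m) * a i).val : ℕ) : ℚ) = ((m * k : ℕ) : ℚ) := by
      rw [h4]
    push_cast at h7
    linarith

end Pool.Agent.Lib.MP_938ce2_ag_h1Z
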