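import Pool.Agent.Lib.MP_938ce2_ag_h1Z.Bridge
import Pool.Agent.Lib.MP_386e47_ag_h1L.E4a

/-!
The class of characters generated by known ones contains all characters in the group `RelUpTo r`.
-/

set_option autoImplicit false

namespace Pool.Agent.Lib.MP_938ce2_ag_h1Z

open Finset
open Pool.Agent.LevelOne (saw dot)
open Pool.Agent.Lib.MP_386e47_ag_h1L
open Pool.Agent.Lib.MP_938ce2_ag_h6 (oddPart oddPart_add fib count_fib)
open Pool.Agent.Lib.MP_938ce2_ag_h99 (IsAlgG algSubG isAlgG_iff_mem jj jj_val jj_injective)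

lemma saw_rep_coe (q : ℚ) : saw ((rep (q : QZ) : ℚ) : ℝ) = saw (q : ℝ) := by
  rw [rep_coe]
  have h1 : ((Int.fract q : ℚ) : ℝ) + (⌊q⌋ : ℤ) = (q : ℝ) := by
    exact_mod_cast congrArg (fun x : ℚ => (x : ℝ)) (Int.fract_add_floor q)
  rw [← h1, Pool.Agent.LevelOne.saw_add_int]

/-- the Hasse-Davenport tuple of order two is a tuple of level zero with four entries -/
lemma hd_two (x : QZ) (hx : 2 • x ≠ 0) : ∃ b : Fin 4 → QZ, LevelZero b ∧
    hasseDavenport 2 x = formal b := by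
  have hx0 : x ≠ 0 := fun h => hx (by rw [h, smul_zero])
  have hxh : x + half ≠ 0 := by
    intro h
    apply hx
    have h1 : x = -half := eq_neg_of_add_eq_zero_left h
    rw [h1, smul_neg, two_nsmul, two_half, neg_zero]
  refine ⟨![x, x + half, -(2 • x), half], ?_, ?_⟩
  · have hch : IsCharacter ![x, x + half, -(2 • x), half] := by
      refine ⟨?_, ?_⟩
      · intro i
        fin_cases i
        · exact hx0
        · exact hxh
        · exact neg_ne_zero.mpr hx
        · exact half_ne_zero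
      · rw [Fin.sum_univ_four]
        simp only [Matrix.cons_val]
        have h1 := two_half
        rw [two_nsmul]
        calc x + (x + half) + -(x + x) + half = half + half := by abel
          _ = 0 := h1
    rw [levelZero_iff hch]
    intro u hu
    have hodd : u.Coprime 2 := by
      have := hu 3
      simp only [Matrix.cons_val] at this
      rwa [order_half] at this
    obtain ⟨w, hw⟩ : ∃ w : ℕ, u = 2 * w + 1 := Nat.coprime_two_right.mp hodd
    rw [Fin.sum_univ_four]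
    unfold rl
    simp only [Matrix.cons_val]
    have e0 : u • x = (((u : ℚ) * rep x : ℚ) : QZ) := by
      rw [← nsmul_eq_mul, AddCircle.coe_nsmul, coe_rep]
    have e1 : u • (x + half) = (((u : ℚ) * rep x + 1 / 2 : ℚ) : QZ) := by
      rw [smul_add, e0]
      have h1 : u • half = half := by
        rw [hw, add_smul, one_smul, mul_comm, mul_smul, two_nsmul, two_half, smul_zero, zero_add]
      rw [h1]
      rfl
    have e2 : u • -(2 • x) = ((-(2 * ((u : ℚ) * rep x)) : ℚ) : QZ) := by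
      rw [smul_neg, smul_comm, e0, ← AddCircle.coe_nsmul, nsmul_eq_mul]
      rfl
    rw [e0, e1, e2, saw_rep_coe, saw_rep_coe, saw_rep_coe, rep_half_odd hodd]
    have h2 := saw_dist 2 (by norm_num) (((u : ℚ) * rep x : ℚ) : ℝ)
    rw [Finset.sum_range_succ, Finset.sum_range_one] at h2
    have h3 : saw (((1 / 2 : ℚ)) : ℝ) = 0 := by
      rw [Pool.Agent.LevelOne.saw_of_mem (by norm_num) (by norm_num)]
      norm_num
    rw [h3]
    push_cast at h2 ⊢
    rw [Pool.Agent.LevelOne.saw_neg, ← h2]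
    simp
  · unfold hasseDavenport formal
    rw [Fin.sum_univ_four, Finset.sum_range_succ, Finset.sum_range_one]
    simp only [Matrix.cons_val]
    have h1 : (((0 : ℕ) : ℚ) / ((2 : ℕ) : ℚ) : ℚ) = 0 := by norm_num
    have h2 : (((1 : ℕ) : ℚ) / ((2 : ℕ) : ℚ) : ℚ) = 1 / 2 := by norm_num
    rw [h1, h2]
    have h3 : ((0 : ℚ) : QZ) = 0 := rfl
    rw [h3, add_zero, if_pos trivial]
    rfl

/-- the Hasse-Davenport tuples of odd order are those of Aoki -/
lemma oddQ_hd {M : ℕ} [NeZero M] {p : ℕ} (hp : p.Prime) (hp2 : p ≠ 2) (y : ZMod M) :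
    oddQ M (hasseDavenport p (toQ M y)) =
      oddPart ((univ.filter fun x : ZMod M => (p : ZMod M) * x = (p : ZMod M) * y).val +
        {-((p : ZMod M) * y)}) := by
  have key : ∀ z : ZMod M, hasseDavenport p (toQ M y) (toQ M z) =
      (((univ.filter fun x : ZMod M => (p : ZMod M) * x = (p : ZMod M) * y).val +
        {-((p : ZMod M) * y)}).count z : ℤ) := by
    intro z
    have h1 := count_fib p ((p : ZMod M) * y) z
    unfold fib at h1
    rw [Multiset.count_add, h1, Multiset.count_singleton]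
    unfold hasseDavenport
    rw [if_neg hp2, add_zero, Finsupp.add_apply]
    have hq : ((p : ℕ) : ℤ) ≠ 0 := by exact_mod_cast hp.ne_zero
    have h2 := root_count (((p : ℕ) : ℤ) • toQ M y) (toQ M y) ((p : ℕ) : ℤ) hq rfl (toQ M z)
    rw [Int.natAbs_natCast] at h2
    rw [h2, Finsupp.single_apply, ← map_nsmul, ← map_neg, nsmul_eq_mul]
    simp only [natCast_zsmul, ← map_nsmul, nsmul_eq_mul, (toQ_injective M).eq_iff]
    push_cast
    congr 1
    by_cases hh : -((p : ZMod M) * y) = z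
    · rw [if_pos hh, if_pos hh.symm]
    · rw [if_neg hh, if_neg (Ne.symm hh)]
  funext z
  change hasseDavenport p (toQ M y) (toQ M z) - hasseDavenport p (toQ M y) (-toQ M z) = _
  rw [← map_neg, key, key]
  rfl

section

variable (G : ∀ (M : ℕ) [NeZero M], Multiset (ZMod M) → Prop)

/-- all Tate characters with at most `2 * r` entries are in the class at every level divisible by
`L * m` -/
def Base (r L : ℕ) : Prop := ∀ (m M : ℕ) [NeZero m] [NeZero M] (h : m ∣ M), L * m ∣ M →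
  ∀ s : Multiset (ZMod m), Pool.Agent.Lib.MP_938ce2_ag_h6.IsTate s → s.card ≤ 2 * r →
    IsAlgG (G M) (s.map (jj h))

variable {G}

theorem oddQ_mem (hG : ∀ (M : ℕ) [NeZero M] (s : Multiset (ZMod M)), G M s →
    G M (s.map fun x => -x)) {r L : ℕ} (hr : 2 ≤ r) (hL : 0 < L) (hb : Base G r L)
    {h : QZ →₀ ℤ} (hh : h ∈ RelUpTo r) : ∃ M₀ : ℕ, 0 < M₀ ∧ ∀ (M : ℕ) [NeZero M], M₀ ∣ M →
      oddQ M h ∈ algSubG (G M) (hG M) := by
  have hlz : ∀ (k : ℕ) (b : Fin k → QZ), k ≤ 2 * r → LevelZero b → ∃ M₀ : ℕ, 0 < M₀ ∧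
      ∀ (M : ℕ) [NeZero M], M₀ ∣ M → oddQ M (formal b) ∈ algSubG (G M) (hG M) := by
    intro k b hk hb0
    obtain ⟨m, hm, a, ha⟩ := exists_level b
    have hb' : b = fun i => toQ m (a i) := by
      funext i
      rw [ha]
    refine ⟨L * m, Nat.mul_pos hL (NeZero.pos m), fun M _ hM => ?_⟩
    have hmM : m ∣ M := (Dvd.intro_left _ rfl).trans hM
    rw [hb', oddQ_formal hmM]
    refine ⟨_, hb m M hmM hM (univ.val.map a) (isTate_of_levelZero a (by rwa [← hb'])) ?_, rfl⟩
    rw [Multiset.card_map]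
    simpa using hk
  unfold RelUpTo at hh
  induction hh using AddSubgroup.closure_induction with
  | mem h hh =>
    rcases hh with ⟨k, b, hk, hb0, rfl⟩ | ⟨p, x, hp, hx, rfl⟩
    · exact hlz k b hk hb0
    · by_cases hp2 : p = 2
      · subst hp2
        obtain ⟨b, hb0, hb1⟩ := hd_two x hx
        rw [hb1]
        exact hlz 4 b (by omega) hb0
      · refine ⟨p * addOrderOf x, Nat.mul_pos hp.pos (order_pos x), fun M _ hM => ?_⟩
        have hxM : M • x = 0 := addOrderOf_dvd_iff_nsmul_eq_zero.mp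
          ((Dvd.intro_left _ rfl).trans hM)
        obtain ⟨y, rfl⟩ := exists_toQ M x hxM
        rw [oddQ_hd hp hp2]
        refine ⟨_, IsAlgG.aoki p y hp hp2 ((Dvd.intro _ rfl).trans hM) ?_, rfl⟩
        intro h0
        apply hx
        rw [← map_nsmul, nsmul_eq_mul, h0, map_zero]
  | zero => exact ⟨1, one_pos, fun M _ _ => by rw [map_zero]; exact AddSubgroup.zero_mem _⟩
  | add h h' _ _ ih ih' =>
    obtain ⟨M₁, h1, h2⟩ := ih
    obtain ⟨M₂, h3, h4⟩ := ih'
    refine ⟨M₁ * M₂, Nat.mul_pos h1 h3, fun M _ hM => ?_⟩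
    rw [map_add]
    exact AddSubgroup.add_mem _ (h2 M ((Dvd.intro _ rfl).trans hM))
      (h4 M ((Dvd.intro_left _ rfl).trans hM))
  | neg h _ ih =>
    obtain ⟨M₁, h1, h2⟩ := ih
    refine ⟨M₁, h1, fun M _ hM => ?_⟩
    rw [map_neg]
    exact AddSubgroup.neg_mem _ (h2 M hM)

/-- a Tate character whose formal sum is in `RelUpTo r` is in the class at some level -/
theorem isAlgG_of_relUpTo (hG : ∀ (M : ℕ) [NeZero M] (s : Multiset (ZMod M)), G M s →
    G M (s.map fun x => -x)) {r L : ℕ} (hr : 2 ≤ r) (hL : 0 < L) (hb : Base G r L)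
    {k m : ℕ} [NeZero m] (a : Fin k → ZMod m)
    (ha : Pool.Agent.Lib.MP_938ce2_ag_h6.IsTate (univ.val.map a))
    (hh : formal (fun i => toQ m (a i)) ∈ RelUpTo r) :
    ∃ (M : ℕ) (_ : NeZero M) (h : m ∣ M), IsAlgG (G M) ((univ.val.map a).map (jj h)) := by
  obtain ⟨M₀, h0, h1⟩ := oddQ_mem hG hr hL hb hh
  have hM : 0 < M₀ * m := Nat.mul_pos h0 (NeZero.pos m)
  refine ⟨M₀ * m, ⟨hM.ne'⟩, Dvd.intro_left _ rfl, ?_⟩
  have : NeZero (M₀ * m) := ⟨hM.ne'⟩
  have h2 := h1 (M₀ * m) (Dvd.intro _ rfl)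
  rw [oddQ_formal (Dvd.intro_left _ rfl : m ∣ M₀ * m)] at h2
  exact (isAlgG_iff_mem (hG (M₀ * m)) (ha.lift (Dvd.intro_left _ rfl))).mpr h2

/-- all but `O(m ^ (k - r - 1))` of the Tate characters with `2 * k` entries are in the class -/
theorem every (hG : ∀ (M : ℕ) [NeZero M] (s : Multiset (ZMod M)), G M s →
    G M (s.map fun x => -x)) {r L : ℕ} (hr : 2 ≤ r) (hL : 0 < L) (hb : Base G r L) (k : ℕ) :
    ∃ C : ℕ, ∀ (m : ℕ) [NeZero m],
      {a : Fin (2 * k) → ZMod m | Pool.Agent.Lib.MP_938ce2_ag_h6.IsTate (univ.val.map a) ∧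
        ¬ ∃ (M : ℕ) (_ : NeZero M) (h : m ∣ M),
          IsAlgG (G M) ((univ.val.map a).map (jj h))}.encard ≤
      ((C * m ^ (k - r - 1) : ℕ) : ℕ∞) := by
  obtain ⟨C, hC⟩ := mainZ r k hr
  refine ⟨C, fun m _ => le_trans ?_ (hC m (NeZero.one_le))⟩
  have hinj : Function.Injective fun (a : Fin (2 * k) → ZMod m) (i : Fin (2 * k)) =>
      toQ m (a i) := by
    intro a b hab
    funext i
    exact toQ_injective m (congrFun hab i)
  rw [← hinj.encard_image]
  refine Set.encard_le_encard ?_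
  rintro _ ⟨a, ⟨h1, h2⟩, rfl⟩
  refine ⟨fun i => ?_, levelZero_of_isTate a h1, fun h3 => h2 ?_⟩
  · rw [← map_nsmul, nsmul_eq_mul, ZMod.natCast_self, zero_mul, map_zero]
  · exact isAlgG_of_relUpTo hG hr hL hb a h1 h3

end

end Pool.Agent.Lib.MP_938ce2_ag_h1Z
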