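import Pool.Agent.Lib.MP_938ce2_ag_h1Z.Bridge2

/-!
The number of Tate characters.
-/

set_option autoImplicit false

namespace Pool.Agent.Lib.MP_938ce2_ag_h1Z

open Finset
open Pool.Agent.Lib.MP_938ce2_ag_h6 (IsTate)
open Pool.Agent.Lib.MP_938ce2_ag_h99 (IsAlgG jj)

section

variable {m : ℕ} [NeZero m]

/-- the tuple of the pairs of opposite entries -/
def mkP (k : ℕ) (b : Fin k → ZMod m) : Fin (2 * k) → ZMod m := fun i =>
  Sum.elim b (fun j => -b j) (finSumFinEquiv.symm (finCongr (two_mul k) i))

omit [NeZero m] in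
lemma sum_mkP {A : Type} [AddCommMonoid A] (k : ℕ) (b : Fin k → ZMod m) (f : ZMod m → A) :
    ∑ i, f (mkP k b i) = ∑ j, (f (b j) + f (-b j)) := by
  unfold mkP
  have h1 := Equiv.sum_comp ((finCongr (two_mul k)).trans finSumFinEquiv.symm)
    fun x : Fin k ⊕ Fin k => f (Sum.elim b (fun j => -b j) x)
  rw [Fintype.sum_sum_type, ← Finset.sum_add_distrib] at h1
  simpa using h1

omit [NeZero m] in
lemma mkP_injective (k : ℕ) : Function.Injective (mkP (m := m) k) := by
  intro b b' h
  funext j
  have h1 := congrFun h ((finCongr (two_mul k)).symm (finSumFinEquiv (Sum.inl j)))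
  unfold mkP at h1
  simpa using h1

lemma isTate_mkP (k : ℕ) (b : Fin k → ZMod m) (hb : ∀ j, b j ≠ 0) :
    IsTate (univ.val.map (mkP k b)) := by
  refine ⟨?_, ?_, fun t => ?_⟩
  · intro h0
    rw [Multiset.mem_map] at h0
    obtain ⟨i, -, hi⟩ := h0
    unfold mkP at hi
    rcases h : finSumFinEquiv.symm (finCongr (two_mul k) i) with j | j
    · rw [h] at hi
      exact hb j hi
    · rw [h] at hi
      exact hb j (neg_eq_zero.mp hi)
  · change ∑ i, mkP k b i = 0
    have h1 := sum_mkP k b fun x => x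
    simpa using h1
  · rw [Multiset.map_map, Multiset.card_map]
    have h3 : ((univ : Finset (Fin (2 * k))).val.map
        ((fun a => ((t : ZMod m) * a).val) ∘ mkP k b)).sum =
        ∑ i, ((t : ZMod m) * mkP k b i).val := rfl
    have h4 : (Finset.univ : Finset (Fin (2 * k))).val.card = 2 * k := by simp
    rw [h3, h4, sum_mkP k b fun x => ((t : ZMod m) * x).val]
    have h5 : ∀ j ∈ (univ : Finset (Fin k)),
        ((t : ZMod m) * b j).val + ((t : ZMod m) * -b j).val = m := by
      intro j _
      rw [mul_neg]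
      have h6 : (t : ZMod m) * b j ≠ 0 := fun h => hb j ((Units.mul_right_eq_zero t).mp h)
      rw [ZMod.neg_val, if_neg h6]
      have := (ZMod.val_lt ((t : ZMod m) * b j)).le
      omega
    rw [Finset.sum_congr rfl h5, Finset.sum_const, Finset.card_univ, Fintype.card_fin,
      smul_eq_mul]
    ring

theorem lowerZ (k : ℕ) : (((m - 1) ^ k : ℕ) : ℕ∞) ≤
    {a : Fin (2 * k) → ZMod m | IsTate (univ.val.map a)}.encard := by
  classical
  have h1 : ((Fintype.piFinset fun _ : Fin k => (univ : Finset (ZMod m)).erase 0)).card =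
      (m - 1) ^ k := by
    rw [Fintype.card_piFinset, Finset.prod_const, Finset.card_erase_of_mem (Finset.mem_univ _),
      Finset.card_univ, Finset.card_univ, ZMod.card, Fintype.card_fin]
  rw [← h1, ← Set.encard_coe_eq_coe_finsetCard, ← (mkP_injective k).encard_image]
  refine Set.encard_le_encard ?_
  rintro _ ⟨b, hb, rfl⟩
  rw [Finset.mem_coe, Fintype.mem_piFinset] at hb
  exact isTate_mkP k b fun j => Finset.ne_of_mem_erase (hb j)

end

/-- characters with at most `2 * r` entries -/
lemma base_card (r : ℕ) : Base (fun M _ (s : Multiset (ZMod M)) => s.card ≤ 2 * r) r 1 := by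
  intro m M _ _ h _ s hs hc
  refine Pool.Agent.Lib.MP_938ce2_ag_h99.IsAlgG.base _ (hs.lift h) ?_
  change (s.map (jj h)).card ≤ 2 * r
  rw [Multiset.card_map]
  exact hc

end Pool.Agent.Lib.MP_938ce2_ag_h1Z
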