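import Pool.Agent.Lib.MP_386e47_ag_h1L.S1

/-! The structure theorem for characters in `ℚ/ℤ`: the general form. -/

set_option autoImplicit false

namespace Pool.Agent.Lib.MP_938ce2_ag_h1Z

open Finset
open Pool.Agent.Lib.MP_386e47_ag_h1
open Pool.Agent.Lib.MP_386e47_ag_h1L
open Pool.Agent.LevelOne (saw dot)

/-- a common order of the entries -/
private noncomputable def ordL {N : ℕ} (a : Fin N → QZ) : ℕ :=
  Finset.univ.lcm fun i => addOrderOf (a i)

private lemma ordL_pos {N : ℕ} (a : Fin N → QZ) : 0 < ordL a := by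
  have h1 : ordL a ∣ ∏ i, addOrderOf (a i) :=
    Finset.lcm_dvd fun i hi => Finset.dvd_prod_of_mem _ hi
  exact Nat.pos_of_dvd_of_pos h1 (Finset.prod_pos fun i _ => order_pos (a i))

private lemma dvd_ordL {N : ℕ} (a : Fin N → QZ) (i : Fin N) : addOrderOf (a i) ∣ ordL a :=
  Finset.dvd_lcm (Finset.mem_univ i)

private lemma exists_num {m : ℕ} (hm : 0 < m) (x : QZ) (h : m • x = 0) :
    ∃ k : ℕ, k < m ∧ rep x = (k : ℚ) / m := by
  have hm' : (0 : ℚ) < m := by exact_mod_cast hm
  have h1 : m • x = ((m * rep x : ℚ) : QZ) := by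
    rw [← nsmul_eq_mul, AddCircle.coe_nsmul, coe_rep]
  rw [h1, coe_eq_zero] at h
  obtain ⟨n, hn⟩ := h
  have h2 : rep x = n / m := by
    rw [← hn]
    field_simp
  have h3 : 0 ≤ n := by
    have := rep_nonneg x
    rw [h2, le_div_iff₀ hm', zero_mul] at this
    exact_mod_cast this
  have h4 : n < m := by
    have := rep_lt_one x
    rw [h2, div_lt_one hm'] at this
    exact_mod_cast this
  obtain ⟨k, rfl⟩ := Int.eq_ofNat_of_zero_le h3
  exact ⟨k, by exact_mod_cast h4, by rw [h2]; push_cast; rfl⟩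

theorem structureG (N : ℕ) : ∃ (F : Finset (Finset (Fin N → ℤ))) (Q : ℕ), 0 < Q ∧
    ∀ a : Fin N → QZ, IsCharacter a → ∃ S ∈ F, (∀ c ∈ S, ∑ i, c i = 0) ∧
      (∀ χ : Fin N → ℤ, (∀ c ∈ S, ∑ i, χ i * c i = 0) → Q • ∑ i, χ i • a i = 0) ∧
      ∀ u, Adm a u → ∀ θ : S → ℝ, GenC univ (rl a u) (fun i (c : S) => c.1 i) θ →
        ∃ w, Adm a w ∧ gC univ (rl a u) (fun i (c : S) => c.1 i) θ =
          ((total a w : ℚ) : ℝ) - (N : ℝ) / 2 := by
  classical
  obtain ⟨F, Q, hQ, hF⟩ := structD (fun _ : Fin N => ())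
  refine ⟨F, Q, hQ, fun a ha => ?_⟩
  set m := ordL a with hm
  have hm0 : 0 < m := ordL_pos a
  have hmq : (m : ℚ) ≠ 0 := by exact_mod_cast hm0.ne'
  have : NeZero m := ⟨hm0.ne'⟩
  have hma : ∀ i, m • a i = 0 := fun i => addOrderOf_dvd_iff_nsmul_eq_zero.mp (dvd_ordL a i)
  choose k hk1 hk2 using fun i => exists_num hm0 (a i) (hma i)
  have hval : ∀ i, ((k i : ℕ) : ZMod m).val = k i := fun i => ZMod.val_cast_of_lt (hk1 i)
  -- conjugates
  have hconj : ∀ (u : ℕ) (i : Fin N),
      rep (u • a i) = ((((u : ZMod m) * (k i : ZMod m)).val : ℚ)) / m := by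
    intro u i
    have h1 : u • a i = (((u * k i : ℕ) : ℚ) / m : ℚ) := by
      conv_lhs => rw [← coe_rep (a i), hk2 i]
      rw [← AddCircle.coe_nsmul, nsmul_eq_mul]
      push_cast
      rw [mul_div_assoc]
    rw [h1, rep_coe, ← Nat.cast_mul, ZMod.val_natCast]
    exact Int.fract_div_natCast_eq_div_natCast_mod
  -- the homomorphism
  have hcoe : ∀ n : ℕ, (((n : ℚ) / m : ℚ) : QZ) = 0 ↔ m ∣ n := by
    intro n
    rw [coe_eq_zero]
    constructor
    · rintro ⟨r, hr⟩
      rw [div_eq_iff hmq] at hr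
      have h1 : (n : ℤ) = r * m := by exact_mod_cast hr
      have h2 : (m : ℤ) ∣ n := ⟨r, by rw [h1]; ring⟩
      exact_mod_cast h2
    · rintro ⟨r, rfl⟩
      refine ⟨r, ?_⟩
      push_cast
      field_simp
  have hak : ∀ i, a i = (((k i : ℚ) / m : ℚ) : QZ) := fun i => by rw [← hk2 i, coe_rep]
  let φ : ZMod m →+ QZ := ZMod.lift m ⟨zmultiplesHom QZ (((1 / m : ℚ)) : QZ), by
    rw [zmultiplesHom_apply, natCast_zsmul, ← AddCircle.coe_nsmul, nsmul_eq_mul,
      mul_one_div, div_self hmq]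
    exact coe_eq_zero.mpr ⟨1, by simp⟩⟩
  have hφ : ∀ i, φ (k i : ZMod m) = a i := by
    intro i
    have h1 : φ (((k i : ℤ) : ZMod m)) = zmultiplesHom QZ (((1 / m : ℚ)) : QZ) (k i : ℤ) :=
      ZMod.lift_coe _ _ _
    rw [Int.cast_natCast] at h1
    rw [h1, zmultiplesHom_apply, natCast_zsmul, ← AddCircle.coe_nsmul, nsmul_eq_mul,
      mul_one_div, hak i]
  let D : Datum (fun _ : Fin N => ()) :=
    { m := m
      ne := inferInstance
      a := fun i => (k i : ZMod m)
      a_ne := by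
        intro i h
        have h1 := hval i
        rw [h, ZMod.val_zero] at h1
        refine ha.1 i (rep_eq_zero.mp ?_)
        rw [hk2 i, ← h1]
        simp
      blk := by
        intro j
        simp only [Finset.filter_true]
        rw [← Nat.cast_sum, ZMod.natCast_eq_zero_iff, ← hcoe]
        push_cast
        rw [Finset.sum_div]
        have h1 := ha.2
        rw [Finset.sum_congr rfl fun i _ => hak i] at h1
        rw [← h1]
        exact map_sum (QuotientAddGroup.mk' (AddSubgroup.zmultiples (1 : ℚ)))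
          (fun i => (k i : ℚ) / m) Finset.univ
      ord := by
        intro d hd h
        refine Nat.le_of_dvd hd ?_
        rw [hm]
        refine Finset.lcm_dvd fun i _ => ?_
        rw [addOrderOf_dvd_iff_nsmul_eq_zero, ← rep_eq_zero, hconj, h i]
        simp }
  obtain ⟨S, hS, h1, h2, h3⟩ := hF D
  refine ⟨S, hS, fun c hc => by simpa using h1 c hc (), fun χ hχ => ?_, fun u hu θ hθ => ?_⟩
  · have h4 := congrArg φ (h2 χ hχ)
    rw [map_nsmul, map_zero] at h4
    rw [← h4]
    congr 1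
    change _ = φ (∑ i, (χ i : ZMod m) * (k i : ZMod m))
    rw [map_sum]
    refine Finset.sum_congr rfl fun i _ => ?_
    rw [← zsmul_eq_mul, map_zsmul, hφ]
  · have hcop : u.Coprime m := by
      refine Nat.Coprime.coprime_dvd_right (Finset.lcm_dvd fun i hi => Finset.dvd_prod_of_mem
        (fun i => addOrderOf (a i)) hi) (Nat.Coprime.prod_right fun i _ => hu i)
    have hrl : ∀ i, rl a u i = ((((ZMod.unitOfCoprime u hcop : (ZMod m)ˣ) : ZMod m) *
        (k i : ZMod m)).val : ℝ) / m := by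
      intro i
      unfold rl
      rw [hconj u i, ZMod.coe_unitOfCoprime]
      push_cast
      rfl
    obtain ⟨w, hw⟩ := h3 (ZMod.unitOfCoprime u hcop) θ (fun i n => by
      have := hθ i (Finset.mem_univ i) n
      rw [hrl i] at this
      exact this)
    have hw' := hw ()
    simp only [Finset.filter_true] at hw'
    have hadm : Adm a (w : ZMod m).val := fun i =>
      Nat.Coprime.coprime_dvd_right (dvd_ordL a i) (ZMod.val_coe_unit_coprime w)
    have htot : D.val w () = ((total a (w : ZMod m).val : ℚ) : ℝ) := by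
      unfold Datum.val total
      simp only [Finset.filter_true]
      rw [Rat.cast_sum]
      refine Finset.sum_congr rfl fun i _ => ?_
      have e : (((w : ZMod m).val : ℕ) : ZMod m) = (w : ZMod m) := ZMod.natCast_zmod_val _
      rw [hconj, e]
      push_cast
      rfl
    have hg : gC univ (rl a u) (fun i (c : S) => c.1 i) θ =
        ((total a (w : ZMod m).val : ℚ) : ℝ) - (N : ℝ) / 2 := by
      rw [← htot, ← hw']
      unfold gC
      rw [Finset.sum_congr rfl fun i _ => Pool.Agent.LevelOne.saw_of_ne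
        (hθ i (Finset.mem_univ i)), Finset.sum_sub_distrib]
      simp only [Finset.sum_const, Finset.card_univ, Fintype.card_fin, nsmul_eq_mul]
      rw [mul_one_div]
      congr 1
      refine Finset.sum_congr rfl fun i _ => ?_
      rw [hrl i]
      rfl
    exact ⟨_, hadm, hg⟩

/-- the sum over all entries vanishes at the generic points -/
def ZeroVal {ι κ : Type} [Fintype ι] [Fintype κ] (α : ι → ℝ) (v : ι → κ → ℤ) : Prop :=
  ∀ θ : κ → ℝ, GenC univ α v θ → gC univ α v θ = 0

theorem structureZ (N : ℕ) : ∃ (F : Finset (Finset (Fin N → ℤ))) (Q : ℕ), 0 < Q ∧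
    ∀ a : Fin N → QZ, LevelZero a → ∃ S ∈ F, (∀ c ∈ S, ∑ i, c i = 0) ∧
      (∀ χ : Fin N → ℤ, (∀ c ∈ S, ∑ i, χ i * c i = 0) → Q • ∑ i, χ i • a i = 0) ∧
      ∀ u, Adm a u → ZeroVal (rl a u) (fun i (c : S) => c.1 i) := by
  obtain ⟨F, Q, hQ, hF⟩ := structureG N
  refine ⟨F, Q, hQ, fun a ha => ?_⟩
  obtain ⟨S, hS, h1, h2, h3⟩ := hF a ha.1
  refine ⟨S, hS, h1, h2, fun u hu θ hθ => ?_⟩
  obtain ⟨w, hw, hg⟩ := h3 u hu θ hθ
  rw [hg, ha.2 w hw, Fintype.card_fin]
  push_cast
  ring

end Pool.Agent.Lib.MP_938ce2_ag_h1Z
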