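import Pool.Agent.Lib.MP_938ce2_ag_h1Z.LowerZ

/-!
All characters of level zero with `2 * k` entries are generated by the Hasse-Davenport tuples, the
characters of level zero with at most four entries and finitely many further ones.
-/

set_option autoImplicit false

namespace Pool.Agent.Lib.MP_938ce2_ag_h1Z

open Finset
open Pool.Agent.LevelOne (saw dot)
open Pool.Agent.Lib.MP_386e47_ag_h1L
open Pool.Agent.Lib.MP_938ce2_ag_h6 (oddPart oddPart_add)
open Pool.Agent.Lib.MP_938ce2_ag_h99 (IsAlgG algSubG isAlgG_iff_mem jj jj_val jj_injective)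

/-- the core of a character of level zero, whatever the rank is -/
theorem core_all {ι κ : Type} [Fintype ι] [Fintype κ] [DecidableEq ι] {v : ι → κ → ℤ} (k : ℕ)
    (hcard : Fintype.card ι = 2 * k) (a : ι → QZ) (ha : IsCharacter a)
    (hst : ∀ u, Adm a u → ZeroVal (rl a u) v) : ∃ e : ℕ, (zs v).card + e ≤ 2 * k ∧
      formal a - formal (coreT a (zs v) e) ∈ MP_386e47_ag_h1L.Rel ∧
      LevelZero (coreT a (zs v) e) := by
  classical
  have hz : ∀ i ∈ zs v, ∀ n : ℤ, rl a 1 i ≠ n := fun i _ n => rl_ne_int (adm_one a) (ha.1 i) n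
  have hin : ∀ C ∈ classes v, Inactive (rl a 1) v C := fun C hC =>
    inactive_all (rl a 1) hz (hst 1 (adm_one a)) hC
  have hent : 2 * k = (zs v).card + ∑ C ∈ classes v, C.card := by
    have h1 := sum_classes v fun _ => 1
    simpa [hcard] using h1
  set s : ℕ := ∑ C ∈ classes v, C.card with hs
  have hrel : formal a - formal (coreT a (zs v) (s % 2)) ∈ MP_386e47_ag_h1L.Rel := by
    refine rel_core ha.1 (zs v) (s % 2) (classes v) (Finset.Subset.refl _) hin
      (fun f => sum_classes v f) ?_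
    have h1 : (∑ C ∈ classes v, (C.card : ℤ)) = (s : ℤ) := by
      rw [hs]
      push_cast
      rfl
    rw [h1]
    refine ⟨(s / 2 : ℕ), ?_⟩
    have h2 := Nat.div_add_mod s 2
    omega
  have hch := isCharacter_core ha (zs v) (s % 2) hrel
  exact ⟨s % 2, by have := Nat.mod_le s 2; omega, hrel, core_levelZero a ha hst (s % 2) hch⟩

/-- the finiteness theorem in `ℚ/ℤ` -/
theorem finiteZ (k : ℕ) : ∃ Q : ℕ, 0 < Q ∧ ∀ a : Fin (2 * k) → QZ, LevelZero a →
    ∃ (n : ℕ) (b : Fin n → QZ), n ≤ 2 * k ∧ LevelZero b ∧ (∀ i, Q • b i = 0) ∧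
      formal a - formal b ∈ MP_386e47_ag_h1L.Rel := by
  classical
  obtain ⟨F, Q, hQ, hF⟩ := structureZ (2 * k)
  refine ⟨2 * Q, by omega, fun a ha => ?_⟩
  obtain ⟨S, -, -, h5, h6⟩ := hF a ha
  obtain ⟨e, he, hrel, hlz⟩ := core_all k (by simp) a ha.1 h6
  set v : Fin (2 * k) → S → ℤ := fun i (c : S) => c.1 i with hv
  set b := coreT a (zs v) e with hb
  have hkill : ∀ i, (2 * Q) • b i = 0 := by
    rintro (i | i)
    · have h7 := h5 (Pi.single i.1 1) (by
        intro c hc
        have h8 : v i.1 = 0 := (Finset.mem_filter.mp i.2).2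
        have h9 : c i.1 = 0 := congrFun h8 ⟨c, hc⟩
        rw [Finset.sum_eq_single i.1]
        · rw [h9, mul_zero]
        · intro j _ hj
          rw [Pi.single_eq_of_ne hj, zero_mul]
        · intro hj
          exact absurd (Finset.mem_univ _) hj)
      rw [Finset.sum_eq_single i.1] at h7
      · rw [Pi.single_eq_same, one_smul] at h7
        change (2 * Q) • a i.1 = 0
        rw [mul_smul, h7, smul_zero]
      · intro j _ hj
        rw [Pi.single_eq_of_ne hj, zero_smul]
      · intro hj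
        exact absurd (Finset.mem_univ _) hj
    · change (2 * Q) • half = 0
      rw [mul_comm, mul_smul, two_nsmul, two_half, smul_zero]
  let E := (Fintype.equivFin (zs v ⊕ Fin e)).symm
  refine ⟨_, fun i => b (E i), ?_, ?_, fun i => hkill _, ?_⟩
  · rw [card_core]
    exact he
  · refine ⟨⟨fun i => hlz.1.1 _, ?_⟩, fun u hu => ?_⟩
    · rw [← hlz.1.2]
      exact Equiv.sum_comp E b
    · have h2 : Adm b u := fun i => by
        have := hu (E.symm i)
        simpa using this
      have h3 : total (fun i => b (E i)) u = total b u := by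
        unfold total
        exact Equiv.sum_comp E fun i => rep (u • b i)
      rw [h3, hlz.2 u h2, Fintype.card_fin]
  · have h1 : formal b = formal (fun i => b (E i)) := by
      unfold formal
      exact (Equiv.sum_comp E fun i => (Finsupp.single (b i) 1 : QZ →₀ ℤ)).symm
    rw [← h1]
    exact hrel

/-- Tate characters with at most four entries, or with at most `2 * k` entries killed by `Q` -/
def GQ (k Q : ℕ) (M : ℕ) [NeZero M] (s : Multiset (ZMod M)) : Prop :=
  s.card ≤ 2 * k ∧ ∀ x ∈ s, (Q : ZMod M) * x = 0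

lemma GQ.neg {k Q : ℕ} (M : ℕ) [NeZero M] (s : Multiset (ZMod M)) (h : GQ k Q M s) :
    GQ k Q M (s.map fun x => -x) := by
  refine ⟨by rw [Multiset.card_map]; exact h.1, fun x hx => ?_⟩
  rw [Multiset.mem_map] at hx
  obtain ⟨y, hy, rfl⟩ := hx
  rw [mul_neg, h.2 y hy, neg_zero]

theorem finiteA (k : ℕ) : ∃ Q : ℕ, 0 < Q ∧ ∀ (m : ℕ) [NeZero m] (a : Fin (2 * k) → ZMod m),
    Pool.Agent.Lib.MP_938ce2_ag_h6.IsTate (univ.val.map a) →
    ∃ (M : ℕ) (_ : NeZero M) (h : m ∣ M),
      IsAlgG (GQ k Q M) ((univ.val.map a).map (jj h)) := by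
  obtain ⟨Q, hQ, hF⟩ := finiteZ k
  refine ⟨Q, hQ, fun m _ a ha => ?_⟩
  obtain ⟨n, b, hn, hb, hk, hrel⟩ := hF _ (levelZero_of_isTate a ha)
  have hlow : Base (fun M _ s => GQ k Q M s) 2 1 := by
    intro m M _ _ h _ s hs hc
    exact Pool.Agent.Lib.MP_938ce2_ag_h99.IsAlgG.low _ (hs.lift h)
      (by rw [Multiset.card_map]; omega)
  obtain ⟨M₀, h0, h1⟩ := oddQ_mem (G := fun M _ s => GQ k Q M s) (fun M _ s hs => GQ.neg M s hs)
    (r := 2) le_rfl one_pos hlow (rel_le le_rfl hrel)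
  obtain ⟨m', hm', b', hb'⟩ := exists_level b
  have hbb : b = fun i => toQ m' (b' i) := by
    funext i
    rw [hb']
  have hM : 0 < M₀ * m' * m := Nat.mul_pos (Nat.mul_pos h0 (NeZero.pos m')) (NeZero.pos m)
  have : NeZero (M₀ * m' * m) := ⟨hM.ne'⟩
  have hmM : m ∣ M₀ * m' * m := Dvd.intro_left _ rfl
  have hm'M : m' ∣ M₀ * m' * m := (Dvd.intro_left _ rfl : m' ∣ M₀ * m').trans (Dvd.intro _ rfl)
  have hM0M : M₀ ∣ M₀ * m' * m := (Dvd.intro _ rfl : M₀ ∣ M₀ * m').trans (Dvd.intro _ rfl)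
  refine ⟨M₀ * m' * m, this, hmM, ?_⟩
  have h2 := h1 (M₀ * m' * m) hM0M
  have h3 : oddQ (M₀ * m' * m) (formal b) ∈
      algSubG (GQ k Q (M₀ * m' * m)) (fun s hs => GQ.neg _ s hs) := by
    rw [hbb, oddQ_formal hm'M]
    refine ⟨_, Pool.Agent.Lib.MP_938ce2_ag_h99.IsAlgG.base _ ((isTate_of_levelZero b'
      (by rwa [← hbb])).lift hm'M) ?_, rfl⟩
    refine ⟨?_, fun x hx => ?_⟩
    · rw [Multiset.card_map, Multiset.card_map]
      simpa using hn
    · rw [Multiset.map_map, Multiset.mem_map] at hx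
      obtain ⟨i, -, rfl⟩ := hx
      apply toQ_injective (M₀ * m' * m)
      rw [map_zero, ← nsmul_eq_mul, map_nsmul, Function.comp_apply, toQ_jj hm'M, hb', hk]
  have h4 := AddSubgroup.add_mem _ h2 h3
  rw [map_sub, sub_add_cancel, oddQ_formal hmM] at h4
  exact (isAlgG_iff_mem (fun s hs => GQ.neg _ s hs) (ha.lift hmM)).mpr h4

end Pool.Agent.Lib.MP_938ce2_ag_h1Z
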